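import Mathlib
import Pool.Agent.Y920.JB.Main
import Pool.Agent.Y920.JB.Cos
import Pool.Agent.Y920.JB.Ext
import Pool.Agent.Y74.JB.COS1
import Pool.Agent.Y390.JB.COS2

/-!
# Haar meager plus Haar null decompositions of abelian Polish groups

Jabłońska asked whether every uncountable abelian Polish group is the union of a Haar meager set and
a Haar null set. We prove it for all abelian Polish groups whose von Neumann kernel (the common
kernel of all continuous characters) is not open, in particular for all uncountable abelian Polish
groups with enough characters (maximally almost periodic groups) and for all uncountable ones with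
enough open subgroups (for example the non-archimedean ones). If the von Neumann kernel is open, it
is a minimally almost periodic Polish group and the question for the group is equivalent to the
question for the kernel. So the question is reduced to minimally almost periodic groups.

The definitions are those of the problem: `HaarMeager` and `HaarNull` are in
`Pool/Agent/Y920/JB/Fin.lean`, `Dec` (disjoint union of a Haar meager F_σ set and a Haar null G_δ set)
in `Stm3.lean`, `Dec0` (union of a Haar meager set and a Haar null set) in `Stm4.lean`, `vnKernel` and
`MinAP` (minimally almost periodic) in `Red.lean`.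

Idea. A *level* (`Lev` in `Stm.lean`) in a neighbourhood `U` of `0` consists of finitely many
`f i ∈ U`, `d k ∈ U`, an open set `S` and a neighbourhood `V` of `0` such that every point `x` has a
`k` with `x + d k + V ⊆ S`, while for only 3/4 of the `i` the set `x + f i + V` meets `S`. A character
`χ` whose kernel is not open gives a level: take `u ∈ U` with small `χ u ≠ 0` and an integer `N` with
`N χ(u)` near `1/4`, the points `0, u, 2u, 3u` and `S = {‖N χ x‖ < 1/4}`. An open subgroup `H` and
`u ∈ U \ H` give a level, with `S / H` a maximal subset of `G / H` without pairs `y, y + u`. Levels can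
be multiplied, so the ratio 3/4 can be replaced by any `ε > 0`. Choose levels with ratios `2 ^ (-n)`
in rapidly shrinking neighbourhoods. Then `B = limsup S_n` is a G_δ set, it is Haar null for the law of
`∑ f_n (i_n)` with random independent `i_n` (Borel–Cantelli), and its complement is Haar meager for
the map `k ↦ ∑ d_n (k_n)`. The second part uses that characters of open subgroups extend.

Project JB (helper920) with helper475, helper888, helper404, helper542, helper406, helper306,
helper702, helper74, helper390, helper151.
-/

set_option autoImplicit false

open MeasureTheory Filter Topology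

namespace Pool.Agent.Results.MP_b60ee2_lc.VonNeumannKernel

open Pool.Agent.Y920.JB

/-- (1) An abelian Polish group whose von Neumann kernel is not open is the disjoint union of a Haar
meager F_σ set and a Haar null G_δ set.
(2) The same holds if the intersection of all open subgroups is not open.
(3) The same holds for uncountable groups in which every nonzero element is moved by a continuous
character or lies outside of some open subgroup.
(4) If the von Neumann kernel is open then it is a minimally almost periodic Polish group, uncountable
if the group is, and the question for the group is equivalent to the question for the kernel.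
(5) The question for all uncountable abelian Polish groups is equivalent to the question for the
minimally almost periodic ones. -/
theorem result :
    (∀ (G : Type) [TopologicalSpace G] [AddCommGroup G] [IsTopologicalAddGroup G]
      [PolishSpace G] [MeasurableSpace G] [BorelSpace G],
      ¬ IsOpen (vnKernel G : Set G) → Dec G) ∧
    (∀ (G : Type) [TopologicalSpace G] [AddCommGroup G] [IsTopologicalAddGroup G]
      [PolishSpace G] [MeasurableSpace G] [BorelSpace G],
      ¬ IsOpen {x : G | ∀ H : AddSubgroup G, IsOpen (H : Set G) → x ∈ H} → Dec G) ∧
    (∀ (G : Type) [TopologicalSpace G] [AddCommGroup G] [IsTopologicalAddGroup G]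
      [PolishSpace G] [MeasurableSpace G] [BorelSpace G], Uncountable G →
      (∀ x : G, x ≠ 0 → (∃ χ : G →+ UnitAddCircle, Continuous χ ∧ χ x ≠ 0) ∨
        ∃ H : AddSubgroup G, IsOpen (H : Set G) ∧ x ∉ H) →
      Dec G) ∧
    (∀ (G : Type) [TopologicalSpace G] [AddCommGroup G] [IsTopologicalAddGroup G]
      [PolishSpace G] [MeasurableSpace G] [BorelSpace G],
      IsOpen (vnKernel G : Set G) →
      PolishSpace (vnKernel G) ∧ MinAP (vnKernel G) ∧
      (Uncountable G → Uncountable (vnKernel G)) ∧
      (Dec (vnKernel G) ↔ Dec G) ∧ (Dec0 (vnKernel G) ↔ Dec0 G)) ∧
    ((∀ (G : Type) [TopologicalSpace G] [AddCommGroup G] [IsTopologicalAddGroup G]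
      [PolishSpace G] [MeasurableSpace G] [BorelSpace G], Uncountable G → Dec0 G) ↔
     (∀ (G : Type) [TopologicalSpace G] [AddCommGroup G] [IsTopologicalAddGroup G]
      [PolishSpace G] [MeasurableSpace G] [BorelSpace G], Uncountable G → MinAP G →
      Dec0 G)) := by
  refine ⟨dec_char, dec_open, dec_sep, ?_, ?_, ?_⟩
  · intro G _ _ _ _ _ _ h
    exact ⟨polish_of_open G _ h, minAP_vnKernel t_EXT G h,
      fun hG => uncountable_of_open G hG _ h,
      ⟨Pool.Agent.Y74.JB.t_COS1 G _ h, Pool.Agent.Y390.JB.t_COS2 G _ h⟩,
      ⟨t_COS1p G _ h, t_COS2p G _ h⟩⟩
  · intro h G _ _ _ _ _ _ hG _
    exact h G hG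
  · intro h G _ _ _ _ _ _ hG
    exact reduction t_EXT t_COS1p dec_char h G hG

end Pool.Agent.Results.MP_b60ee2_lc.VonNeumannKernel
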